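import Pool.Agent.H37.CF.Basic

/-!
# Row CCNM: multiplicativity of the number of pairs
-/

set_option autoImplicit false

open NumberField
open scoped nonZeroDivisors

namespace Pool.Agent.H85.CF

open Pool.Agent.H37.CF

/-- The gcd of the value with `f` depends on the residues only. -/
theorem gcd_val_mod (t n : ℤ) (f x y : ℕ) :
    Int.gcd (((x % f : ℕ) : ℤ) ^ 2 + t * ((x % f : ℕ) : ℤ) * ((y % f : ℕ) : ℤ) +
      n * ((y % f : ℕ) : ℤ) ^ 2) f =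
    Int.gcd ((x : ℤ) ^ 2 + t * x * y + n * (y : ℤ) ^ 2) f := by
  have key : ∀ a b : ℤ, a ≡ b [ZMOD f] → Int.gcd a f = Int.gcd b f := by
    intro a b hab
    obtain ⟨k, hk⟩ := hab.dvd
    have hb : b = a + f * k := by linarith
    rw [hb, Int.gcd_add_mul_left_left]
  apply key
  have hx : ((x % f : ℕ) : ℤ) ≡ x [ZMOD f] := by
    rw [Int.natCast_mod]; exact Int.mod_modEq _ _
  have hy : ((y % f : ℕ) : ℤ) ≡ y [ZMOD f] := by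
    rw [Int.natCast_mod]; exact Int.mod_modEq _ _
  exact ((hx.pow 2).add (((Int.ModEq.refl t).mul hx).mul hy)).add
    ((Int.ModEq.refl n).mul (hy.pow 2))

theorem cond_iff (t n : ℤ) {f₁ f₂ d₁ d₂ : ℕ} (h : f₁.Coprime f₂) (hd₁ : d₁ ∣ f₁) (hd₂ : d₂ ∣ f₂)
    (x y : ℕ) :
    (f₁ * f₂ / (d₁ * d₂) ∣ y ∧
      Int.gcd ((x : ℤ) ^ 2 + t * x * y + n * (y : ℤ) ^ 2) ((f₁ * f₂ : ℕ) : ℤ) = 1) ↔
    (f₁ / d₁ ∣ y % f₁ ∧ Int.gcd (((x % f₁ : ℕ) : ℤ) ^ 2 + t * ((x % f₁ : ℕ) : ℤ) *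
      ((y % f₁ : ℕ) : ℤ) + n * ((y % f₁ : ℕ) : ℤ) ^ 2) f₁ = 1) ∧
    (f₂ / d₂ ∣ y % f₂ ∧ Int.gcd (((x % f₂ : ℕ) : ℤ) ^ 2 + t * ((x % f₂ : ℕ) : ℤ) *
      ((y % f₂ : ℕ) : ℤ) + n * ((y % f₂ : ℕ) : ℤ) ^ 2) f₂ = 1) := by
  have e1 : f₁ / d₁ ∣ f₁ := Nat.div_dvd_of_dvd hd₁
  have e2 : f₂ / d₂ ∣ f₂ := Nat.div_dvd_of_dvd hd₂
  have hc : (f₁ / d₁).Coprime (f₂ / d₂) := Nat.Coprime.coprime_dvd_left e1
    (Nat.Coprime.coprime_dvd_right e2 h)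
  rw [gcd_val_mod, gcd_val_mod, Nat.dvd_mod_iff e1, Nat.dvd_mod_iff e2,
    ← Nat.div_mul_div_comm hd₁ hd₂]
  have hD : f₁ / d₁ * (f₂ / d₂) ∣ y ↔ f₁ / d₁ ∣ y ∧ f₂ / d₂ ∣ y := by
    constructor
    · intro hy
      exact ⟨(Dvd.intro _ rfl).trans hy, (Dvd.intro_left _ rfl).trans hy⟩
    · rintro ⟨ha, hb⟩
      exact hc.mul_dvd_of_dvd_of_dvd ha hb
  have hG : ∀ v : ℤ, Int.gcd v ((f₁ * f₂ : ℕ) : ℤ) = 1 ↔ Int.gcd v f₁ = 1 ∧ Int.gcd v f₂ = 1 := by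
    intro v
    rw [← Int.isCoprime_iff_gcd_eq_one, ← Int.isCoprime_iff_gcd_eq_one,
      ← Int.isCoprime_iff_gcd_eq_one, Nat.cast_mul, IsCoprime.mul_right_iff]
  rw [hD, hG]
  tauto

theorem pf_CNM : T_CNM := by
  intro t n f₁ f₂ d₁ d₂ h h₁ h₂ hd₁ hd₂
  rw [← Finset.card_product]
  refine Finset.card_nbij' (fun v => ((v.1 % f₁, v.2 % f₁), (v.1 % f₂, v.2 % f₂)))
    (fun w => (Nat.chineseRemainder h w.1.1 w.2.1, Nat.chineseRemainder h w.1.2 w.2.2)) ?_ ?_ ?_ ?_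
  · intro v hv
    have hv' := hv
    simp only [prs, Finset.coe_filter, Finset.mem_product, Finset.mem_range,
      Set.mem_ofPred_eq] at hv'
    have hc := (cond_iff t n h hd₁ hd₂ v.1 v.2).1 hv'.2
    simp only [prs, Finset.coe_product, Set.mem_prod, Finset.coe_filter, Finset.mem_product,
      Finset.mem_range, Set.mem_ofPred_eq]
    exact ⟨⟨⟨Nat.mod_lt _ h₁, Nat.mod_lt _ h₁⟩, hc.1⟩, ⟨⟨Nat.mod_lt _ h₂, Nat.mod_lt _ h₂⟩, hc.2⟩⟩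
  · intro w hw
    simp only [prs, Finset.coe_product, Set.mem_prod, Finset.coe_filter, Finset.mem_product,
      Finset.mem_range, Set.mem_ofPred_eq] at hw
    obtain ⟨⟨⟨a1, a2⟩, a3⟩, ⟨⟨b1, b2⟩, b3⟩⟩ := hw
    have x1 : (Nat.chineseRemainder h w.1.1 w.2.1 : ℕ) % f₁ = w.1.1 :=
      Eq.trans (Nat.chineseRemainder h w.1.1 w.2.1).2.1 (Nat.mod_eq_of_lt a1)
    have x2 : (Nat.chineseRemainder h w.1.1 w.2.1 : ℕ) % f₂ = w.2.1 :=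
      Eq.trans (Nat.chineseRemainder h w.1.1 w.2.1).2.2 (Nat.mod_eq_of_lt b1)
    have y1 : (Nat.chineseRemainder h w.1.2 w.2.2 : ℕ) % f₁ = w.1.2 :=
      Eq.trans (Nat.chineseRemainder h w.1.2 w.2.2).2.1 (Nat.mod_eq_of_lt a2)
    have y2 : (Nat.chineseRemainder h w.1.2 w.2.2 : ℕ) % f₂ = w.2.2 :=
      Eq.trans (Nat.chineseRemainder h w.1.2 w.2.2).2.2 (Nat.mod_eq_of_lt b2)
    simp only [prs, Finset.coe_filter, Finset.mem_product, Finset.mem_range, Set.mem_ofPred_eq]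
    refine ⟨⟨Nat.chineseRemainder_lt_mul h _ _ (by omega) (by omega),
      Nat.chineseRemainder_lt_mul h _ _ (by omega) (by omega)⟩, ?_⟩
    rw [cond_iff t n h hd₁ hd₂, x1, x2, y1, y2]
    exact ⟨a3, b3⟩
  · intro v hv
    have hv' := hv
    simp only [prs, Finset.coe_filter, Finset.mem_product, Finset.mem_range,
      Set.mem_ofPred_eq] at hv'
    obtain ⟨⟨c1, c2⟩, -⟩ := hv'
    have key : ∀ z : ℕ, z < f₁ * f₂ → (Nat.chineseRemainder h (z % f₁) (z % f₂) : ℕ) = z := by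
      intro z hz
      have e1 : (Nat.chineseRemainder h (z % f₁) (z % f₂) : ℕ) ≡ z [MOD f₁] :=
        (Nat.chineseRemainder h (z % f₁) (z % f₂)).2.1.trans (Nat.mod_modEq _ _)
      have e2 : (Nat.chineseRemainder h (z % f₁) (z % f₂) : ℕ) ≡ z [MOD f₂] :=
        (Nat.chineseRemainder h (z % f₁) (z % f₂)).2.2.trans (Nat.mod_modEq _ _)
      have e3 : (Nat.chineseRemainder h (z % f₁) (z % f₂) : ℕ) ≡ z [MOD f₁ * f₂] :=
        (Nat.modEq_and_modEq_iff_modEq_mul h).1 ⟨e1, e2⟩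
      exact e3.eq_of_lt_of_lt (Nat.chineseRemainder_lt_mul h _ _ (by omega) (by omega)) hz
    exact Prod.ext (key _ c1) (key _ c2)
  · intro w hw
    simp only [prs, Finset.coe_product, Set.mem_prod, Finset.coe_filter, Finset.mem_product,
      Finset.mem_range, Set.mem_ofPred_eq] at hw
    obtain ⟨⟨⟨a1, a2⟩, a3⟩, ⟨⟨b1, b2⟩, b3⟩⟩ := hw
    have x1 : (Nat.chineseRemainder h w.1.1 w.2.1 : ℕ) % f₁ = w.1.1 :=
      Eq.trans (Nat.chineseRemainder h w.1.1 w.2.1).2.1 (Nat.mod_eq_of_lt a1)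
    have x2 : (Nat.chineseRemainder h w.1.1 w.2.1 : ℕ) % f₂ = w.2.1 :=
      Eq.trans (Nat.chineseRemainder h w.1.1 w.2.1).2.2 (Nat.mod_eq_of_lt b1)
    have y1 : (Nat.chineseRemainder h w.1.2 w.2.2 : ℕ) % f₁ = w.1.2 :=
      Eq.trans (Nat.chineseRemainder h w.1.2 w.2.2).2.1 (Nat.mod_eq_of_lt a2)
    have y2 : (Nat.chineseRemainder h w.1.2 w.2.2 : ℕ) % f₂ = w.2.2 :=
      Eq.trans (Nat.chineseRemainder h w.1.2 w.2.2).2.2 (Nat.mod_eq_of_lt b2)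
    exact Prod.ext (Prod.ext x1 y1) (Prod.ext x2 y2)

end Pool.Agent.H85.CF
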