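import Pool.Agent.H91.CF.TA

/-!
# Row AWPR: the local weight is periodic
-/

set_option autoImplicit false

open MeasureTheory Set Filter
open scoped Real

namespace Pool.Agent.H85.CF

open Pool.Agent.H31.CN Pool.Agent.H91.CF
open Pool.Agent.H96.CN (Av Per2 nrt_congr dvd_iff_of_sub)

theorem ch_congr (p : ℕ) (Δ Δ' : ℤ) (h : (p : ℤ) ^ (if p = 2 then 4 else 2) ∣ Δ - Δ') :
    ch p Δ = ch p Δ' := by
  unfold ch
  by_cases hp : p = 2
  · subst hp
    rw [if_pos rfl] at h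
    have h16 : (16 : ℤ) ∣ Δ - Δ' := by
      have e : ((2 : ℕ) : ℤ) ^ 4 = 16 := by norm_num
      rwa [e] at h
    have e : Δ % 8 = Δ' % 8 := by omega
    rw [if_pos rfl, if_pos rfl, e]
  · rw [if_neg hp, if_neg hp]
    rw [if_neg hp] at h
    have h1 : (p : ℤ) ∣ Δ - Δ' := (dvd_pow_self _ (by norm_num)).trans h
    rw [nrt_congr p (A := 1) (A' := 1) (B := 0) (B' := 0) (by simp) (by simp) h1]

theorem gdp_congr (p : ℕ) (Δ Δ' : ℤ) (h : (p : ℤ) ^ (if p = 2 then 4 else 2) ∣ Δ - Δ') :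
    gdp p Δ ↔ gdp p Δ' := by
  unfold gdp
  by_cases hp : p = 2
  · subst hp
    rw [if_pos rfl] at h
    have h16 : (16 : ℤ) ∣ Δ - Δ' := by
      have e : ((2 : ℕ) : ℤ) ^ 4 = 16 := by norm_num
      rwa [e] at h
    rw [if_pos rfl, if_pos rfl]
    omega
  · rw [if_neg hp, if_neg hp]
    rw [if_neg hp] at h
    rw [dvd_iff_of_sub h]

theorem dsc_dvd {m : ℤ} {A : ℕ} {B C B' C' : ℤ} (h1 : m ∣ B - B') (h2 : m ∣ C - C') :
    m ∣ (4 * (A : ℤ) * C - B ^ 2) - (4 * (A : ℤ) * C' - B' ^ 2) := by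
  have e : (4 * (A : ℤ) * C - B ^ 2) - (4 * (A : ℤ) * C' - B' ^ 2) =
      (C - C') * (4 * A) - (B - B') * (B + B') := by ring
  rw [e]
  exact dvd_sub (Dvd.dvd.mul_right h2 _) (Dvd.dvd.mul_right h1 _)

theorem pf_WPR : T_WPR := by
  intro f p lam t e A hf hp B C B' C' hB hC
  have hD := dsc_dvd (A := A) hB hC
  have hp0 : (p : ℤ) ≠ 0 := by exact_mod_cast hp.ne_zero
  by_cases hpf : p ∣ f
  · have hk : 1 ≤ f.factorization p := hp.factorization_pos_of_dvd hf.ne' hpf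
    have hq : (qlp f p : ℤ) = (p : ℤ) ^ (2 * f.factorization p + 5) := by
      unfold qlp
      rw [if_pos hpf]
      push_cast
      rfl
    have hqs : (qlp f p : ℤ) = sqp f p * (p : ℤ) ^ 7 := by
      rw [hq, sqp, ← pow_add]
      congr 1
      omega
    have hs0 : sqp f p ≠ 0 := by
      unfold sqp
      exact pow_ne_zero _ hp0
    have hsq : sqp f p ∣ (qlp f p : ℤ) := by rw [hqs]; exact Dvd.intro _ rfl
    have hpq : (p : ℤ) ∣ (qlp f p : ℤ) := by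
      rw [hq]
      exact dvd_pow_self _ (by omega)
    have hsD : sqp f p ∣ 4 * (A : ℤ) * C - B ^ 2 ↔ sqp f p ∣ 4 * (A : ℤ) * C' - B' ^ 2 :=
      dvd_iff_of_sub (hsq.trans hD)
    have hCC : (p : ℤ) ∣ C ↔ (p : ℤ) ∣ C' := dvd_iff_of_sub (hpq.trans hC)
    unfold wlo
    rw [if_pos hpf, if_pos hpf]
    by_cases hs : sqp f p ∣ 4 * (A : ℤ) * C - B ^ 2
    · have hs' := hsD.1 hs
      have h7 : (p : ℤ) ^ (if p = 2 then 4 else 2) ∣
          (4 * (A : ℤ) * C - B ^ 2) / sqp f p - (4 * (A : ℤ) * C' - B' ^ 2) / sqp f p := by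
        obtain ⟨a, ha⟩ := hs
        obtain ⟨b, hb⟩ := hs'
        rw [ha, hb, Int.mul_ediv_cancel_left _ hs0, Int.mul_ediv_cancel_left _ hs0]
        rw [ha, hb, hqs, ← mul_sub] at hD
        have h := (mul_dvd_mul_iff_left hs0).1 hD
        refine (pow_dvd_pow _ ?_).trans h
        split_ifs <;> norm_num
      rw [ch_congr p _ _ h7]
      have hc : (sqp f p ∣ 4 * (A : ℤ) * C - B ^ 2 ∧
          gdp p ((4 * (A : ℤ) * C - B ^ 2) / sqp f p) ∧ ¬ p ∣ e ∧ ¬ p ∣ A ∧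
          (t = 0 ∨ ¬ (p : ℤ) ∣ C)) ↔ (sqp f p ∣ 4 * (A : ℤ) * C' - B' ^ 2 ∧
          gdp p ((4 * (A : ℤ) * C' - B' ^ 2) / sqp f p) ∧ ¬ p ∣ e ∧ ¬ p ∣ A ∧
          (t = 0 ∨ ¬ (p : ℤ) ∣ C')) := by
        rw [hsD, gdp_congr p _ _ h7, hCC]
      by_cases h : (sqp f p ∣ 4 * (A : ℤ) * C - B ^ 2 ∧
          gdp p ((4 * (A : ℤ) * C - B ^ 2) / sqp f p) ∧ ¬ p ∣ e ∧ ¬ p ∣ A ∧
          (t = 0 ∨ ¬ (p : ℤ) ∣ C))
      · rw [if_pos h, if_pos (hc.1 h)]
      · rw [if_neg h, if_neg (fun h' => h (hc.2 h'))]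
    · rw [if_neg (fun h => hs h.1), if_neg (fun h => hs (hsD.2 h.1))]
  · have hq : qlp f p = ql p := by
      unfold qlp
      rw [if_neg hpf]
    rw [hq] at hB hC hD
    have hp2 : ((p ^ 2 : ℕ) : ℤ) ∣ (ql p : ℤ) := by
      unfold ql
      split_ifs with h
      · subst h
        norm_num
      · exact dvd_rfl
    have hp1 : (p : ℤ) ∣ ((p ^ 2 : ℕ) : ℤ) := ⟨p, by push_cast; ring⟩
    have hpt : (p : ℤ) ^ (if p = 2 then 4 else 2) ∣ (ql p : ℤ) := by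
      unfold ql
      split_ifs with h
      · subst h
        norm_num
      · push_cast
        exact dvd_rfl
    have hB2 := hp2.trans hB
    have hC2 := hp2.trans hC
    have hB1 := hp1.trans hB2
    have hC1 := hp1.trans hC2
    have hch := ch_congr p _ _ (hpt.trans hD)
    have hgd := gdp_congr p _ _ (hpt.trans hD)
    have hn1 : nrt p A B C = nrt p A B' C' := nrt_congr p (by simp) hB1 hC1
    have hn2 : nrt (p ^ 2) A B C = nrt (p ^ 2) A B' C' := nrt_congr _ (by simp) hB2 hC2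
    have hn3 : nrt p ((A / p : ℕ) : ℤ) B (p * C) = nrt p ((A / p : ℕ) : ℤ) B' (p * C') :=
      nrt_congr p (by simp) hB1 (by
        rw [← mul_sub]
        exact Dvd.intro _ rfl)
    unfold wlo N1 N2
    rw [if_neg hpf, if_neg hpf, hch, hn1, hn2, hn3]
    by_cases h : gdp p (4 * (A : ℤ) * C - B ^ 2)
    · rw [if_pos h, if_pos (hgd.mp h)]
    · rw [if_neg h, if_neg (fun h' => h (hgd.mpr h'))]

end Pool.Agent.H85.CF
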